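import Pool.Agent.W982.TA.Stm2

set_option autoImplicit false

namespace Pool.Agent.W982.TA

theorem s2_small : ∀ k < 24, (0 < (dv k).1 * (dv k).2 → sgT k = 1) ∧
    ((dv k).1 * (dv k).2 < 0 → sgT k = 2) ∧
    minA k ≤ (dv k).1.natAbs ∧ minB k ≤ (dv k).2.natAbs := by
  decide +kernel

theorem s2_abs (a c i j : ℤ) (h : (0 ≤ a ∧ 0 ≤ c) ∨ (a ≤ 0 ∧ c ≤ 0)) (hi : 1 ≤ i) (hj : 1 ≤ j) :
    (a + c).natAbs ≤ (i * a + j * c).natAbs := by
  rcases h with ⟨h1, h2⟩ | ⟨h1, h2⟩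
  · have h3 : a ≤ i * a := by nlinarith
    have h4 : c ≤ j * c := by nlinarith
    omega
  · have h3 : i * a ≤ a := by nlinarith
    have h4 : j * c ≤ c := by nlinarith
    omega

theorem s2_dirs : ∀ m < 24, ((m < 12 → 0 ≤ (dv m).1 ∧ 0 ≤ (dv (m + 1)).1) ∧
    (¬ m < 12 → (dv m).1 ≤ 0 ∧ (dv (m + 1)).1 ≤ 0)) ∧ 0 ≤ (dv m).2 ∧ 0 ≤ (dv (m + 1)).2 := by
  decide +kernel

theorem s2 : TaskS2 := by
  intro k hk v hv
  by_cases h24 : k < 24
  · rw [HasT, if_pos h24] at hv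
    subst hv
    exact s2_small k h24
  · rw [HasT, if_neg h24] at hv
    obtain ⟨i, j, hi, hj, rfl⟩ := hv
    obtain ⟨⟨hA, hB⟩, hC, hD⟩ := s2_dirs (k - 24) (by omega)
    have e : k - 24 + 1 = k - 23 := by omega
    rw [e] at hA hB hD
    have hmA : minA k = ((dv (k - 24)).1 + (dv (k - 23)).1).natAbs := by
      rw [minA, if_neg h24]
    have hmB : minB k = ((dv (k - 24)).2 + (dv (k - 23)).2).natAbs := by
      rw [minB, if_neg h24]
    rw [hmA, hmB]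
    have h2 : 0 ≤ i * (dv (k - 24)).2 + j * (dv (k - 23)).2 := by positivity
    by_cases h12 : k - 24 < 12
    · obtain ⟨a1, a2⟩ := hA h12
      have h1 : 0 ≤ i * (dv (k - 24)).1 + j * (dv (k - 23)).1 := by positivity
      refine ⟨fun _ => ?_, fun h => ?_, s2_abs _ _ _ _ (Or.inl ⟨a1, a2⟩) hi hj,
        s2_abs _ _ _ _ (Or.inl ⟨hC, hD⟩) hi hj⟩
      · unfold sgT; split_ifs <;> omega
      · exact absurd h (not_lt.2 (mul_nonneg h1 h2))
    · obtain ⟨a1, a2⟩ := hB h12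
      have h1 : i * (dv (k - 24)).1 + j * (dv (k - 23)).1 ≤ 0 := by nlinarith
      refine ⟨fun h => ?_, fun _ => ?_, s2_abs _ _ _ _ (Or.inr ⟨a1, a2⟩) hi hj,
        s2_abs _ _ _ _ (Or.inl ⟨hC, hD⟩) hi hj⟩
      · exact absurd h (not_lt.2 (mul_nonpos_of_nonpos_of_nonneg h1 h2))
      · unfold sgT; split_ifs <;> omega

end Pool.Agent.W982.TA
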